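import Mathlib
import Pool.Agent.K1H90.NV.Mz

/-!
# MP_e54452_nt: linear forms in polynomials in multiple zeta values, sharp measures

A word is a list of letters `(a, b) ≠ (0, 0)`, the first one with `a ≥ 1`; its value at `n` is the
multiple zeta value with the arguments `a n + b`; so there may be small fixed arguments behind the
first one. Let `x_0, …, x_r` be rational combinations of products of words whose stuffle expansions
are linearly independent. Linear forms in the values of `x_0, …, x_r` at `n` with integer
coefficients of absolute value at most `H`, `D ^ n ≤ H ≤ C ^ n`, are larger than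
`H ^ (-r) B ^ (-n)`, for every `B > 1` and all large `n`; the exponent `r` is best possible.

The proof (`Pool.Agent.K1H90.NV`) shows that the arithmetic functions of the words are independent
on the products of powers of primes of very different size. It uses the subspace theorem over the
field of germs of rational sequences (`Pool.Agent.Y760.ST`), the arithmetic functions of the words
(`Pool.Agent.TH507.WG`), the zero estimate `Pool.Agent.Y760.ZF.Zk` and primes in arithmetic
progressions (`Pool.Agent.K1H34.Had`).
-/

set_option autoImplicit false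

namespace Pool.Agent.Results.MP_e54452_nt.SharpMeasures

/-- `trunc [s_1, ..., s_r] m` is the sum of `∏ k_i ^ (-s_i)` over `m > k_1 > ... > k_r ≥ 1` -/
noncomputable def trunc : List ℕ → ℕ → ℝ
  | [], _ => 1
  | s :: l, m => ∑ j ∈ Finset.Ico 1 m, trunc l j / (j : ℝ) ^ s

/-- the multiple zeta value whose argument `s_1` belongs to the largest variable, `ζ(s_r, ..., s_1)`
in the notation of the problem -/
noncomputable def mzv : List ℕ → ℝ
  | [] => 1
  | s :: l => ∑' k : ℕ, trunc l (k + 1) / ((k + 1 : ℕ) : ℝ) ^ s

/-- words in the letters `(a, b)` -/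
abbrev Word : Type := List (ℕ × ℕ)

/-- the letters are not `(0, 0)`, the first one has `a ≥ 1` -/
def Admissible (w : Word) : Prop := (∀ x ∈ w, x ≠ (0, 0)) ∧ ∀ x ∈ w.head?, 1 ≤ x.1

/-- the value of a word at `n`: the multiple zeta value with the arguments `a n + b` -/
noncomputable def value (n : ℕ) (w : Word) : ℝ := mzv (w.map fun x => x.1 * n + x.2)

/-- the stuffle product of two words, as a list of words; the sum of two letters `(a, b)`,
`(a', b')` is `(a + a', b + b')` -/
def stuffle : Word → Word → List Word
  | [], v => [v]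
  | x :: u, [] => [x :: u]
  | x :: u, y :: v => (stuffle u (y :: v)).map (x :: ·) ++ (stuffle (x :: u) v).map (y :: ·) ++
      (stuffle u v).map ((x + y) :: ·)
termination_by u v => u.length + v.length

/-- the stuffle product of several words -/
def stuffles : List Word → List Word
  | [] => [[]]
  | u :: M => (stuffles M).flatMap (stuffle u)

/-- the stuffle expansion of a rational combination of products (lists) of words -/
noncomputable def expansion : (List Word →₀ ℚ) →ₗ[ℚ] (Word →₀ ℚ) :=
  Finsupp.linearCombination ℚ fun M => ((stuffles M).map fun w => Finsupp.single w 1).sum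

/-- the value at `n` of a rational combination of products of words -/
noncomputable def eval (n : ℕ) : (List Word →₀ ℚ) →ₗ[ℚ] ℝ :=
  Finsupp.linearCombination ℚ fun M => (M.map (value n)).prod

open Filter Topology in
/-- Let `β_1, …, β_l` be real algebraic numbers, linearly independent over `ℚ`, and let
`x_0, …, x_r` be rational combinations of products of admissible words whose stuffle expansions are
linearly independent, such that `x_0(n)` does not tend to zero (for example `x_0 = 1`). There is
`D > 1` such that for all `C` and all `B > 1` there is `n0` such that for all `n ≥ n0`, all `H` with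
`D ^ n ≤ H ≤ C ^ n` and all integers `q_(j,i)`, not all zero, of absolute value at most `H`,
`|∑ q_(j,i) β_j x_i(n)| > 1 / (H ^ (l (r + 1) - 1) B ^ n)`. -/
theorem result {l r : ℕ} (β : Fin l → ℝ) (hβ : ∀ j, IsAlgebraic ℚ (β j))
    (hβi : LinearIndependent ℚ β) (x : Fin (r + 1) → List Word →₀ ℚ)
    (hw : ∀ i, ∀ M ∈ (x i).support, ∀ w ∈ M, Admissible w)
    (hx : LinearIndependent ℚ fun i => expansion (x i))
    (h0 : ¬ Tendsto (fun n => eval n (x 0)) atTop (𝓝 0)) :
    ∃ D : ℝ, 1 < D ∧ ∀ C B : ℝ, 1 < B → ∃ n0 : ℕ, ∀ n : ℕ, n0 ≤ n → ∀ H : ℝ, D ^ n ≤ H →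
      H ≤ C ^ n → ∀ q : Fin l → Fin (r + 1) → ℤ, q ≠ 0 → (∀ j i, |(q j i : ℝ)| ≤ H) →
        1 / (H ^ (l * (r + 1) - 1) * B ^ n) < |∑ j, ∑ i, (q j i : ℝ) * (β j * eval n (x i))| := by
  classical
  have h1 : ∀ l m, trunc l m = Pool.Agent.TH507.WD.hr l m := by
    intro l
    induction l with
    | nil => intro m; rw [trunc, Pool.Agent.TH507.WD.hr]
    | cons s l ih =>
      intro m
      rw [trunc, Pool.Agent.TH507.WD.hr]
      exact Finset.sum_congr rfl fun j _ => by rw [ih]
  have h2 : ∀ l, mzv l = Pool.Agent.TH507.WD.mz l := by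
    intro l
    cases l with
    | nil => rw [mzv, Pool.Agent.TH507.WD.mz]
    | cons s l =>
      rw [mzv, Pool.Agent.TH507.WD.mz]
      exact tsum_congr fun k => by rw [h1]
  have h3 : ∀ u v, stuffle u v = Pool.Agent.TH507.WG.st u v := by
    intro u v
    induction u, v using Pool.Agent.TH507.WG.st.induct with
    | case1 v => rw [stuffle, Pool.Agent.TH507.WG.st]
    | case2 x u => rw [stuffle, Pool.Agent.TH507.WG.st]
    | case3 x u y v ih1 ih2 ih3 => rw [stuffle, Pool.Agent.TH507.WG.st, ih1, ih2, ih3]
  have h4 : ∀ M, stuffles M = Pool.Agent.TH507.WG.stl M := by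
    intro M
    induction M with
    | nil => rw [stuffles, Pool.Agent.TH507.WG.stl]
    | cons u M ih =>
      rw [stuffles, Pool.Agent.TH507.WG.stl, ih]
      congr 1
      funext v
      exact h3 u v
  have h5 : expansion = Pool.Agent.K1H90.NV.expand := by
    unfold expansion Pool.Agent.K1H90.NV.expand
    simp only [h4]
  have h6 : ∀ n, eval n = Pool.Agent.K1H90.NV.valP n := by
    intro n
    unfold eval Pool.Agent.K1H90.NV.valP
    have h7 : (fun M : List Word => (M.map (value n)).prod) = fun M =>
        (M.map fun u => Pool.Agent.TH507.WD.mz (Pool.Agent.TH507.WG.ar n u)).prod := by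
      funext M
      have h8 : value n = fun u => Pool.Agent.TH507.WD.mz (Pool.Agent.TH507.WG.ar n u) := by
        funext u
        rw [value, h2, Pool.Agent.TH507.WG.ar]
      rw [h8]
    rw [h7]
  have hw' : ∀ i, ∀ M ∈ (x i).support, ∀ u ∈ M,
      Pool.Agent.TH507.WG.HP u ∧ Pool.Agent.TH507.WG.OK u := by
    intro i M hM u hu
    obtain ⟨h7, h8⟩ := hw i M hM u hu
    refine ⟨?_, fun y hy hy0 => ?_⟩
    · revert h8
      cases u with
      | nil => intro _; trivial
      | cons y l => intro h8; exact h8 y (by simp)
    · have h9 := h7 y hy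
      by_contra hcon
      apply h9
      ext
      · exact hy0
      · show y.2 = 0
        omega
  rw [h5] at hx
  have hev : ∀ i, ∃ n0 : ℕ, ∀ n, n0 ≤ n →
      eval n (x i) = Pool.Agent.K1H90.NV.valW n (Pool.Agent.K1H90.NV.expand (x i)) := by
    intro i
    obtain ⟨n0, hn0⟩ := Pool.Agent.K1H90.NV.valP_eq (x i) (hw' i)
    exact ⟨n0, fun n hn => by rw [h6]; exact hn0 n hn⟩
  choose N hN using hev
  obtain ⟨D, hD, hmain⟩ := Pool.Agent.K1H90.NV.mzMain β hβ hβi
    (fun i => Pool.Agent.K1H90.NV.expand (x i))
    (fun i => Pool.Agent.K1H90.NV.expand_supp (x i) (hw' i)) hx (fun h7 => h0 (by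
      refine (Pool.Agent.K1H90.NV.valW_tendsto _
        (Pool.Agent.K1H90.NV.expand_supp (x 0) (hw' 0)) h7).congr' ?_
      filter_upwards [eventually_ge_atTop (N 0)] with n hn
      exact (hN 0 n hn).symm))
  refine ⟨D, hD, fun C B hB => ?_⟩
  obtain ⟨n0, hn0⟩ := hmain C B hB
  refine ⟨n0 + ∑ i, N i, fun n hn H hH1 hH2 q hq hqH => ?_⟩
  have h9 := hn0 n (by omega) H hH1 hH2 q hq hqH
  have h10 : ∀ i, eval n (x i) =
      Pool.Agent.K1H90.NV.valW n (Pool.Agent.K1H90.NV.expand (x i)) := by
    intro i
    refine hN i n ?_
    have h11 : N i ≤ ∑ i, N i := Finset.single_le_sum (fun _ _ => Nat.zero_le _) (Finset.mem_univ i)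
    omega
  simp only [h10]
  exact h9

end Pool.Agent.Results.MP_e54452_nt.SharpMeasures
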